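import Mathlib
import Pool.Agent.Q25.PLP.Top

/-!
# The optimal constant in the points-lines-planes inequality in space

For a finite set `S` of `n` points in space with `l` lines and `p` planes the infimum of
`l ^ 2 / (n p)` over the admissible sets is `3 / 2`, and it is not attained.
-/

set_option autoImplicit false

namespace Pool.Agent.Results.MP_9f1016_co.OptimalConstant

open Pool.Agent.Q25.PLP

/-- `k* = 3 / 2`, and every admissible set has a quotient larger than `3 / 2`. -/
theorem result :
    sInf {r : ℝ | ∃ S : Finset E3, Admissible S ∧ r = quo S} = 3 / 2 ∧
      ∀ S : Finset E3, Admissible S → 3 / 2 < quo S :=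
  kstar fin_true r3_true

end Pool.Agent.Results.MP_9f1016_co.OptimalConstant
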